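import Pool.Agent.N916.PQ.Main15

/-!
# The counting argument for the central values of the quadratic twists
-/

set_option autoImplicit false

open Finset Filter

namespace Pool.Agent.N975.NF

open Pool.Agent.N919.BS (NF)

/-- `D` is a fundamental discriminant (`1` included) -/
def Fund (D : ℤ) : Prop := (Squarefree D ∧ D % 4 = 1) ∨
  ∃ m : ℤ, D = 4 * m ∧ Squarefree m ∧ (m % 4 = 2 ∨ m % 4 = 3)

/-- the squarefree integer `m` with `ℚ(√m) = ℚ(√D)` -/
def core (D : ℤ) : ℤ := if D % 2 = 1 then D else D / 4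

open Classical in
/-- the number of the quadratic fields of discriminant `D`, `|D| ≤ X`, with the property `P` of
`m = core D` -/
noncomputable def count (P : ℤ → Prop) (X : ℕ) : ℕ :=
  ((Icc (-(X : ℤ)) X).filter fun D => Fund D ∧ D ≠ 1 ∧ P (core D)).card

theorem fund_core {D : ℤ} (h : Fund D) : Squarefree (core D) := by
  rcases h with ⟨h1, h2⟩ | ⟨m, rfl, h1, h2⟩
  · unfold core
    rw [if_pos (by omega)]
    exact h1
  · unfold core
    rw [if_neg (by omega)]
    have : 4 * m / 4 = m := by omega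
    rw [this]
    exact h1

theorem count_le {P Q : ℤ → Prop} (h : ∀ m, Squarefree m → P m → Q m) (X : ℕ) :
    count P X ≤ NF Q X := by
  classical
  unfold count NF
  refine (card_le_card fun D hD => ?_).trans_eq (congrArg Finset.card rfl)
  rw [mem_filter] at hD ⊢
  exact ⟨hD.1, hD.2.1, h _ (fund_core hD.2.1) hD.2.2.2⟩

theorem le_count {P Q : ℤ → Prop} (h : ∀ m, Squarefree m → Q m → P m) (X : ℕ) :
    NF Q X ≤ count P X + 1 := by
  classical
  unfold count NF
  refine le_trans (card_le_card (t := insert 1 ((Icc (-(X : ℤ)) X).filter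
    fun D => Fund D ∧ D ≠ 1 ∧ P (core D))) fun D hD => ?_) (card_insert_le _ _)
  rw [mem_filter] at hD
  rw [mem_insert, mem_filter]
  by_cases h1 : D = 1
  · exact Or.inl h1
  · exact Or.inr ⟨hD.1, hD.2.1, h1, h _ (fund_core hD.2.1) hD.2.2⟩

theorem low : ∃ (c : ℝ) (X₀ : ℕ), 0 < c ∧ ∀ X : ℕ, X₀ ≤ X → c * X ≤ (NF (fun _ => True) X : ℝ) := by
  obtain ⟨c, X₀, hc, h⟩ := Pool.Agent.N919.BS.low1
  refine ⟨c, X₀, hc, fun X hX => (h X hX).trans ?_⟩
  rw [Pool.Agent.N919.BS.NF_eq]
  exact_mod_cast (by omega)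

theorem T_top : Tendsto (fun X : ℕ => (NF (fun _ => True) X : ℝ)) atTop atTop := by
  obtain ⟨c, X₀, hc, h⟩ := low
  refine tendsto_atTop_mono' atTop (f₁ := fun X : ℕ => c * (X : ℝ)) ?_
    (Tendsto.const_mul_atTop hc tendsto_natCast_atTop_atTop)
  filter_upwards [eventually_ge_atTop X₀] with X hX using h X hX

/-- the counting argument: `NV` holds on `G` and implies `R`; `R` has density `1/2` and `G` has
density `η/2` -/
theorem final {NV R G : ℤ → Prop} (hG1 : ∀ m, Squarefree m → G m → NV m)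
    (hR1 : ∀ m, Squarefree m → NV m → R m)
    (half : Tendsto (fun X : ℕ => (NF R X : ℝ) / (NF (fun _ => True) X : ℝ)) atTop
      (nhds (1 / 2)))
    {η ε : ℝ} (h0 : 0 < η) (h1 : η < 1) (hε : 0 < ε)
    (hG : Tendsto (fun X : ℕ => (NF G X : ℝ) / (NF (fun _ => True) X : ℝ)) atTop
      (nhds (η / 2))) :
    ∀ᶠ X : ℕ in atTop,
      (η / 2 - ε) * count (fun _ => True) X ≤ count NV X ∧
      (η - ε) * count R X ≤ count NV X ∧
      (count NV X : ℝ) ≤ (1 / 2 + ε) * count (fun _ => True) X ∧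
      |(count R X : ℝ) - 1 / 2 * count (fun _ => True) X| ≤
        ε * count (fun _ => True) X := by
  set δ : ℝ := ε / 8 with hδ
  have hδ0 : 0 < δ := by positivity
  have e1 := hG.eventually (lt_mem_nhds (show η / 2 - δ < η / 2 by linarith))
  have e2 := half.eventually (gt_mem_nhds (show (1 / 2 : ℝ) < 1 / 2 + δ by linarith))
  have e3 := half.eventually (lt_mem_nhds (show (1 / 2 : ℝ) - δ < 1 / 2 by linarith))
  have e4 := T_top.eventually_ge_atTop ((2 + ε) / δ + 2)
  filter_upwards [e1, e2, e3, e4] with X a1 a2 a3 a4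
  set T : ℝ := (NF (fun _ => True) X : ℝ) with hT
  set R' : ℝ := (NF R X : ℝ) with hR
  set G' : ℝ := (NF G X : ℝ) with hGd
  have hT0 : 0 < T := by
    have : 0 < (2 + ε) / δ + 2 := by positivity
    linarith
  have b1 : (η / 2 - δ) * T < G' := by rwa [lt_div_iff₀ hT0] at a1
  have b2 : R' < (1 / 2 + δ) * T := by rwa [div_lt_iff₀ hT0] at a2
  have b3 : (1 / 2 - δ) * T < R' := by rwa [lt_div_iff₀ hT0] at a3
  have b4 : 2 + ε ≤ δ * T := by
    have h5 : (2 + ε) / δ ≤ T := by linarith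
    rwa [div_le_iff₀ hδ0, mul_comm] at h5
  have c1 : G' ≤ count NV X + 1 := by
    rw [hGd]
    exact_mod_cast le_count (P := NV) hG1 X
  have c2 : (count NV X : ℝ) ≤ R' := by
    rw [hR]
    exact_mod_cast count_le (Q := R) hR1 X
  have c3 : (count (fun _ => True) X : ℝ) ≤ T := by
    rw [hT]
    exact_mod_cast count_le (Q := fun _ => True) (fun _ _ h => h) X
  have c4 : T ≤ count (fun _ => True) X + 1 := by
    rw [hT]
    exact_mod_cast le_count (P := fun _ => True) (fun _ _ h => h) X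
  have c5 : (count R X : ℝ) ≤ R' := by
    rw [hR]
    exact_mod_cast count_le (Q := R) (fun _ _ h => h) X
  have c6 : R' ≤ count R X + 1 := by
    rw [hR]
    exact_mod_cast le_count (P := R) (fun _ _ h => h) X
  have n0 : (0 : ℝ) ≤ count NV X := Nat.cast_nonneg _
  have n1 : (0 : ℝ) ≤ count (fun _ => True) X := Nat.cast_nonneg _
  have n2 : (0 : ℝ) ≤ count R X := Nat.cast_nonneg _
  set N : ℝ := (count (fun _ => True) X : ℝ) with hN
  set V : ℝ := (count NV X : ℝ) with hV
  set W : ℝ := (count R X : ℝ) with hW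
  have hε8 : ε = 8 * δ := by rw [hδ]; ring
  refine ⟨?_, ?_, ?_, ?_⟩
  · by_cases h5 : η / 2 - ε ≤ 0
    · exact (mul_nonpos_of_nonpos_of_nonneg h5 n1).trans n0
    · push Not at h5
      have h6 : (η / 2 - ε) * N ≤ (η / 2 - ε) * T := mul_le_mul_of_nonneg_left c3 h5.le
      have h7 : (η / 2 - ε) * T = (η / 2 - δ) * T - 7 * (δ * T) := by rw [hε8]; ring
      linarith
  · by_cases h5 : η - ε ≤ 0
    · exact (mul_nonpos_of_nonpos_of_nonneg h5 n2).trans n0
    · push Not at h5
      have h6 : (η - ε) * W ≤ (η - ε) * ((1 / 2 + δ) * T) :=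
        mul_le_mul_of_nonneg_left (c5.trans b2.le) h5.le
      have h7 : (η - ε) * ((1 / 2 + δ) * T) = (η / 2 - δ) * T + (η - 3) * (δ * T) -
          8 * δ * (δ * T) := by rw [hε8]; ring
      have h8 : 0 ≤ δ * T := by positivity
      have h9 : 0 ≤ 8 * δ * (δ * T) := by positivity
      have h10 : (η - 3) * (δ * T) ≤ -2 * (δ * T) := mul_le_mul_of_nonneg_right (by linarith) h8
      linarith
  · have h6 : (1 / 2 + ε) * (T - 1) ≤ (1 / 2 + ε) * N :=
      mul_le_mul_of_nonneg_left (by linarith) (by linarith)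
    have h7 : (1 / 2 + ε) * (T - 1) = (1 / 2 + δ) * T + 7 * (δ * T) - 1 / 2 - ε := by
      rw [hε8]; ring
    linarith
  · have h6 : ε * (T - 1) ≤ ε * N := mul_le_mul_of_nonneg_left (by linarith) hε.le
    have h7 : ε * (T - 1) = 8 * (δ * T) - ε := by rw [hε8]; ring
    rw [abs_le]
    constructor
    · have h8 : (1 / 2 - δ) * T = 1 / 2 * T - δ * T := by ring
      linarith
    · have h8 : (1 / 2 + δ) * T = 1 / 2 * T + δ * T := by ring
      linarith

end Pool.Agent.N975.NF
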