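import Pool.Agent.N974.T15.Ex5
import Pool.Agent.N871.S15.OneV
import Pool.Agent.N875.S15.One

/-!
# The complete L-functions of the twists of the newform of level `15` by the quadratic characters
-/

set_option autoImplicit false
set_option linter.style.haveILetI false

open Finset

namespace Pool.Agent.N975.NF

/-- the value at the prime `p` of the quadratic character of `ℚ(√m)`, `m` squarefree -/
def chi (m : ℤ) (p : ℕ) : ℤ :=
  if p = 2 then (if m % 8 = 1 then 1 else if m % 8 = 5 then -1 else 0) else jacobiSym m p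

theorem chi_one (p : ℕ) : chi 1 p = 1 := by
  unfold chi
  split_ifs with h1 h2
  · rfl
  · exact absurd (by norm_num) h2
  · exact absurd (by norm_num) h2
  · exact jacobiSym.one_left p

theorem jac_two {k : ℕ} (hk : Odd k) : jacobiSym 2 k = if k % 8 = 1 ∨ k % 8 = 7 then 1 else -1 := by
  rw [jacobiSym.at_two hk, ZMod.χ₈_nat_eq_if_mod_eight]
  have h2 := Nat.odd_iff.1 hk
  rw [if_neg (by omega)]

theorem jac_two_natAbs {m : ℤ} (h4 : m % 4 = 1) : jacobiSym 2 m.natAbs = chi m 2 := by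
  have hodd : Odd m.natAbs := Nat.odd_iff.2 (by omega)
  rw [jac_two hodd]
  unfold chi
  rw [if_pos rfl]
  by_cases h8 : m % 8 = 1
  · rw [if_pos (by omega), if_pos h8]
  · rw [if_neg (by omega), if_neg h8, if_pos (by omega)]

theorem jac_eq_zero {m : ℤ} {p : ℕ} (hp : p.Prime) : jacobiSym m p = 0 ↔ (p : ℤ) ∣ m := by
  haveI : NeZero p := ⟨hp.ne_zero⟩
  rw [jacobiSym.eq_zero_iff_not_coprime]
  have h1 : Int.gcd m p = 1 ↔ ¬ (p : ℤ) ∣ m := by
    rw [show Int.gcd m p = Nat.gcd m.natAbs p from rfl, Nat.gcd_comm, Int.natCast_dvd]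
    exact Nat.Prime.coprime_iff_not_dvd hp
  exact ⟨fun h => not_not.1 fun h2 => h (h1.2 h2), fun h h2 => h1.1 h2 h⟩

theorem chi_cases (m : ℤ) {p : ℕ} (hp : p.Prime) : chi m p = 0 ∨ chi m p ^ 2 = 1 := by
  unfold chi
  by_cases h2 : p = 2
  · rw [if_pos h2]
    split_ifs <;> simp
  · rw [if_neg h2]
    by_cases hd : (p : ℤ) ∣ m
    · exact Or.inl ((jac_eq_zero hp).2 hd)
    · right
      have h1 : Int.gcd m p = 1 := by
        rw [show Int.gcd m p = Nat.gcd m.natAbs p from rfl, Nat.gcd_comm]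
        exact (Nat.Prime.coprime_iff_not_dvd hp).2 (fun h => hd (Int.natCast_dvd.2 h))
      rcases jacobiSym.eq_one_or_neg_one h1 with h2 | h2 <;> rw [h2] <;> norm_num

/-- the ramified primes -/
theorem chi_zero_odd {m : ℤ} (h4 : m % 4 = 1) {p : ℕ} (hp : p.Prime) :
    p ∣ m.natAbs ↔ chi m p = 0 := by
  unfold chi
  by_cases h2 : p = 2
  · rw [if_pos h2]
    subst h2
    constructor
    · intro h
      omega
    · intro h
      split_ifs at h <;> omega
  · rw [if_neg h2, jac_eq_zero hp, Int.natCast_dvd]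

theorem chi_zero_even {m : ℤ} (h4 : m % 4 ≠ 1) {p : ℕ} (hp : p.Prime) :
    p ∣ (4 * m).natAbs ↔ chi m p = 0 := by
  unfold chi
  by_cases h2 : p = 2
  · rw [if_pos h2]
    subst h2
    rw [if_neg (by omega), if_neg (by omega)]
    exact ⟨fun _ => rfl, fun _ => by omega⟩
  · rw [if_neg h2, jac_eq_zero hp, Int.natAbs_mul, Int.natCast_dvd]
    exact Pool.Agent.N871.S15.d2 hp h2

namespace T15

open Pool.Agent.Y700 (IsL Omega tamProd)
open Pool.Agent.W97.MT (ap)
open Pool.Agent.N974.MF (E15)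
open Pool.Agent.N218.T15 (EE)
open Pool.Agent.N875.X15 (WN Em)
open Pool.Agent.N875.S15
open Pool.Agent.N871.S15 (EE_odd EE_even exists_chr)
open Pool.Agent.N809.PQ (Sg15 w15 sg15_parity)

theorem p15 {p : ℕ} (hp : p.Prime) : p ∣ 15 ↔ p = 3 ∨ p = 5 := by
  rw [show (15 : ℕ) = 3 * 5 by norm_num, hp.dvd_mul,
    Nat.prime_dvd_prime_iff_eq hp Nat.prime_three, Nat.prime_dvd_prime_iff_eq hp Nat.prime_five]

/-- the coefficients -/
theorem ap_EE {m : ℤ} (hs : Squarefree m) (p : ℕ) (hp : p.Prime) :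
    ap (EE m) p = ap E15 p * chi m p := by
  by_cases h1 : m = 1
  · subst h1
    rw [chi_one, EE_odd (by norm_num), ap_WN (by norm_num) p hp]
    norm_num
  obtain ⟨q, χ, H⟩ := exists_chr hs h1
  by_cases hp2 : p = 2
  · subst hp2
    by_cases h4 : m % 4 = 1
    · rw [EE_odd h4, ap_WN h4 2 hp]
      congr 1
      exact_mod_cast jac_two_natAbs h4
    · rw [H.ap 2 hp]
      have h3 : 2 ∣ q := by
        have h5 := H.disc 2 hp
        rw [EE_even h4, dvd_Δ (Em_Δ' m) hp] at h5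
        have h6 : ((2 : ℕ) : ℤ) ∣ 4 * m := by
          push_cast
          omega
        rcases h5.1 (Or.inr h6) with h7 | h7
        · omega
        · exact h7
      rw [H.zero 2 fun h => (Nat.Prime.coprime_iff_not_dvd hp).1 h h3]
      unfold chi
      rw [if_pos rfl, if_neg (by omega), if_neg (by omega)]
  · rw [H.ap p hp, H.prime p hp hp2]
    unfold chi
    rw [if_neg hp2]

/-- the bad primes -/
theorem disc_EE {m : ℤ} {p : ℕ} (hp : p.Prime) :
    (p : ℤ) ∣ (EE m).Δ ↔ (p = 3 ∨ p = 5) ∨ chi m p = 0 := by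
  rw [← p15 hp]
  by_cases h4 : m % 4 = 1
  · rw [EE_odd h4, dvd_Δ (WN_Δ' h4) hp, Int.natCast_dvd, chi_zero_odd h4 hp]
  · rw [EE_even h4, dvd_Δ (Em_Δ' m) hp, Int.natCast_dvd, chi_zero_even h4 hp]

/-- the complete L-function of the newform of level `15` twisted by the character of `ℚ(√m)` -/
def IsLt (m : ℤ) (F : ℂ → ℂ) : Prop :=
  Differentiable ℂ F ∧ ∀ s : ℂ, (3 : ℝ) / 2 < s.re →
    HasProd (fun p : Nat.Primes => (1 - ((chi m p * ap E15 p : ℤ) : ℂ) * ((p : ℕ) : ℂ) ^ (-s) +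
      (if (p : ℕ) = 3 ∨ (p : ℕ) = 5 then 0
        else ((chi m p ^ 2 : ℤ) : ℂ) * ((p : ℕ) : ℂ) ^ (1 - 2 * s)))⁻¹) (F s)

theorem isL_iff {m : ℤ} (hs : Squarefree m) (F : ℂ → ℂ) : IsL (EE m) F ↔ IsLt m F := by
  unfold IsL IsLt
  refine and_congr Iff.rfl (forall_congr' fun s => forall_congr' fun _ => ?_)
  have e : (fun p : Nat.Primes => (1 - (ap (EE m) p : ℂ) * ((p : ℕ) : ℂ) ^ (-s) +
      (if ((p : ℕ) : ℤ) ∣ (EE m).Δ then 0 else ((p : ℕ) : ℂ) ^ (1 - 2 * s)))⁻¹) =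
      fun p : Nat.Primes => (1 - ((chi m p * ap E15 p : ℤ) : ℂ) * ((p : ℕ) : ℂ) ^ (-s) +
      (if (p : ℕ) = 3 ∨ (p : ℕ) = 5 then 0
        else ((chi m p ^ 2 : ℤ) : ℂ) * ((p : ℕ) : ℂ) ^ (1 - 2 * s)))⁻¹ := by
    funext p
    have h1 := disc_EE (m := m) p.2
    rw [ap_EE hs _ p.2, mul_comm (ap E15 p) (chi m p)]
    congr 2
    by_cases h17 : (p : ℕ) = 3 ∨ (p : ℕ) = 5
    · rw [if_pos h17, if_pos (h1.2 (Or.inl h17))]
    · rw [if_neg h17]
      rcases chi_cases m p.2 with h2 | h2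
      · rw [if_pos (h1.2 (Or.inr h2)), h2]
        norm_num
      · have h3 : ¬ ((p : ℕ) : ℤ) ∣ (EE m).Δ := by
          intro h
          rcases h1.1 h with h4 | h4
          · exact h17 h4
          · rw [h4] at h2
            norm_num at h2
        rw [if_neg h3, h2]
        norm_num
  rw [e]

/-- **the L-functions**: existence, uniqueness, the parity of the value -/
theorem main {m : ℤ} (hs : Squarefree m) : ∃ F : ℂ → ℂ, IsLt m F ∧ (∀ G, IsLt m G → G = F) ∧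
    (w15 m = -1 → F 1 = 0) ∧ (Sg15 m → F 1 ≠ 0) := by
  suffices h : ∃ F : ℂ → ℂ, IsL (EE m) F ∧ (w15 m = -1 → F 1 = 0) ∧ (Sg15 m → F 1 ≠ 0) by
    obtain ⟨F, h1, h2, h3⟩ := h
    exact ⟨F, (isL_iff hs F).1 h1, fun G hG => ((isL_iff hs G).2 hG).unique h1, h2, h3⟩
  have hp : tamProd (EE m) ≠ 0 := by
    rw [Pool.Agent.N218.T15.tamProd_EE hs]
    refine mul_ne_zero (pow_ne_zero _ (by norm_num)) (mul_ne_zero ?_ ?_)
    · unfold Pool.Agent.N218.T15.t3
      split_ifs <;> norm_num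
    · unfold Pool.Agent.N218.T15.t5
      split_ifs <;> norm_num
  rcases eq_or_ne m 1 with rfl | h1
  · obtain ⟨h, f, hf, hv⟩ := Pool.Agent.N871.S15.exact_one
    refine ⟨f, hf, fun hw => ?_, fun hS => absurd hS not_sg_one⟩
    norm_num [w15] at hw
  rcases eq_or_ne m (-1) with rfl | h2
  · obtain ⟨h, f, hf, hv⟩ := Pool.Agent.N871.S15.exact_neg_one
    refine ⟨f, hf, fun hw => ?_, fun hS => absurd hS not_sg_neg_one⟩
    norm_num [w15] at hw
  obtain ⟨hΩ, f, y, hf, hy, hv⟩ := Pool.Agent.N974.T15.ccx_all hs h1 h2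
  refine ⟨f, hf, fun hw => ?_, fun hS h0 => ?_⟩
  · obtain ⟨-, g, hg, hg1⟩ := van hs hw
    rw [← hg.unique hf]
    exact hg1
  · have hyo := hy.2 hS
    have hy0 : y ≠ 0 := by
      rintro rfl
      exact absurd hyo (by decide)
    rw [h0] at hv
    have h3 : (0 : ℝ) = (y : ℝ) ^ 2 * (Omega (EE m) * tamProd (EE m) / 16) := by
      exact_mod_cast hv
    have h5 : (y : ℝ) ≠ 0 := by exact_mod_cast hy0
    have h6 : (tamProd (EE m) : ℝ) ≠ 0 := by exact_mod_cast hp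
    have h7 : Omega (EE m) ≠ 0 := hΩ.ne'
    have h8 : (y : ℝ) ^ 2 * (Omega (EE m) * tamProd (EE m) / 16) ≠ 0 := by positivity
    exact h8 h3.symm

end T15

end Pool.Agent.N975.NF
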