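import Pool.Agent.N973.P21G.Fin
import Pool.Agent.N975.S21V.Van
import Pool.Agent.N877.S21.In
import Pool.Agent.N975.NF.Tw15

/-!
# The complete L-functions of the twists of the newform of level `21` by the quadratic characters
-/

set_option autoImplicit false
set_option linter.style.haveILetI false

open Finset

namespace Pool.Agent.N975.NF.T21

open Pool.Agent.N975.NF
open Pool.Agent.Y700 (IsL Omega tamProd)
open Pool.Agent.W97.MT (ap)
open Pool.Agent.N637.P21 (E21 WN Em ap_Em_two)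
open Pool.Agent.N218.T21 (EE)
open Pool.Agent.N877.S21 (ap_WN ap_Em dO dE)
open Pool.Agent.N809.PQ (Sg21 w21 sg21_parity)

theorem p21 {p : ℕ} (hp : p.Prime) : p ∣ 21 ↔ p = 3 ∨ p = 7 := by
  rw [show (21 : ℕ) = 3 * 7 by norm_num, hp.dvd_mul,
    Nat.prime_dvd_prime_iff_eq hp Nat.prime_three,
    Nat.prime_dvd_prime_iff_eq hp (by norm_num : Nat.Prime 7)]

theorem EE_odd {m : ℤ} (h4 : m % 4 = 1) : EE m = WN m := if_pos h4

theorem EE_even {m : ℤ} (h4 : m % 4 ≠ 1) : EE m = Em m := if_neg h4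

/-- the coefficients -/
theorem ap_EE {m : ℤ} (p : ℕ) (hp : p.Prime) : ap (EE m) p = ap E21 p * chi m p := by
  by_cases h4 : m % 4 = 1
  · rw [EE_odd h4, ap_WN h4 p hp]
    congr 1
    by_cases hp2 : p = 2
    · subst hp2
      exact_mod_cast jac_two_natAbs h4
    · unfold chi
      rw [if_neg hp2]
      exact (Pool.Agent.N875.X15.recip h4 (hp.odd_of_ne_two hp2)).symm
  · by_cases hp2 : p = 2
    · subst hp2
      rw [EE_even h4, ap_Em_two]
      unfold chi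
      rw [if_pos rfl, if_neg (by omega), if_neg (by omega), mul_zero]
    · rw [EE_even h4, ap_Em p hp hp2]
      unfold chi
      rw [if_neg hp2]

/-- the bad primes -/
theorem disc_EE {m : ℤ} {p : ℕ} (hp : p.Prime) :
    (p : ℤ) ∣ (EE m).Δ ↔ (p = 3 ∨ p = 7) ∨ chi m p = 0 := by
  rw [← p21 hp]
  by_cases h4 : m % 4 = 1
  · rw [EE_odd h4, dO h4 p hp, chi_zero_odd h4 hp]
  · have e : 4 * m.natAbs = (4 * m).natAbs := by omega
    rw [EE_even h4, dE m p hp, e, chi_zero_even h4 hp]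

/-- the complete L-function of the newform of level `21` twisted by the character of `ℚ(√m)` -/
def IsLt (m : ℤ) (F : ℂ → ℂ) : Prop :=
  Differentiable ℂ F ∧ ∀ s : ℂ, (3 : ℝ) / 2 < s.re →
    HasProd (fun p : Nat.Primes => (1 - ((chi m p * ap E21 p : ℤ) : ℂ) * ((p : ℕ) : ℂ) ^ (-s) +
      (if (p : ℕ) = 3 ∨ (p : ℕ) = 7 then 0
        else ((chi m p ^ 2 : ℤ) : ℂ) * ((p : ℕ) : ℂ) ^ (1 - 2 * s)))⁻¹) (F s)

theorem isL_iff (m : ℤ) (F : ℂ → ℂ) : IsL (EE m) F ↔ IsLt m F := by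
  unfold IsL IsLt
  refine and_congr Iff.rfl (forall_congr' fun s => forall_congr' fun _ => ?_)
  have e : (fun p : Nat.Primes => (1 - (ap (EE m) p : ℂ) * ((p : ℕ) : ℂ) ^ (-s) +
      (if ((p : ℕ) : ℤ) ∣ (EE m).Δ then 0 else ((p : ℕ) : ℂ) ^ (1 - 2 * s)))⁻¹) =
      fun p : Nat.Primes => (1 - ((chi m p * ap E21 p : ℤ) : ℂ) * ((p : ℕ) : ℂ) ^ (-s) +
      (if (p : ℕ) = 3 ∨ (p : ℕ) = 7 then 0
        else ((chi m p ^ 2 : ℤ) : ℂ) * ((p : ℕ) : ℂ) ^ (1 - 2 * s)))⁻¹ := by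
    funext p
    have h1 := disc_EE (m := m) p.2
    rw [ap_EE _ p.2, mul_comm (ap E21 p) (chi m p)]
    congr 2
    by_cases h17 : (p : ℕ) = 3 ∨ (p : ℕ) = 7
    · rw [if_pos h17, if_pos (h1.2 (Or.inl h17))]
    · rw [if_neg h17]
      rcases chi_cases m p.2 with h2 | h2
      · rw [if_pos (h1.2 (Or.inr h2)), h2]
        norm_num
      · have h3 : ¬ ((p : ℕ) : ℤ) ∣ (EE m).Δ := by
          intro h
          rcases h1.1 h with h4 | h4
          · exact h17 h4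
          · rw [h4] at h2
            norm_num at h2
        rw [if_neg h3, h2]
        norm_num
  rw [e]

/-- **the L-functions**: existence, uniqueness, the parity of the value -/
theorem main {m : ℤ} (hs : Squarefree m) : ∃ F : ℂ → ℂ, IsLt m F ∧ (∀ G, IsLt m G → G = F) ∧
    (w21 m ≠ 1 → F 1 = 0) ∧ (Sg21 m → F 1 ≠ 0) := by
  suffices h : ∃ F : ℂ → ℂ, IsL (EE m) F ∧ (w21 m ≠ 1 → F 1 = 0) ∧ (Sg21 m → F 1 ≠ 0) by
    obtain ⟨F, h1, h2, h3⟩ := h
    exact ⟨F, (isL_iff m F).1 h1, fun G hG => ((isL_iff m G).2 hG).unique h1, h2, h3⟩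
  have hp : tamProd (EE m) ≠ 0 := by
    rw [Pool.Agent.N218.T21.tamProd_EE hs]
    refine mul_ne_zero (pow_ne_zero _ (by norm_num)) (mul_ne_zero ?_ ?_)
    · unfold Pool.Agent.N218.T21.t3
      split_ifs <;> norm_num
    · unfold Pool.Agent.N218.T21.t7
      split_ifs <;> norm_num
  have h6 : (tamProd (EE m) : ℝ) ≠ 0 := by exact_mod_cast hp
  rcases eq_or_ne m 1 with rfl | h1
  · obtain ⟨h, f, hf, hv⟩ := Pool.Agent.N973.P21G.one_valX
    refine ⟨f, hf, fun hw => absurd ?_ hw, fun _ h0 => ?_⟩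
    · norm_num [w21]
    · rw [h0] at hv
      have h3 : (0 : ℝ) = Omega (EE 1) * tamProd (EE 1) / 64 := by exact_mod_cast hv
      have h7 : Omega (EE 1) ≠ 0 := h.ne'
      have h8 : Omega (EE 1) * tamProd (EE 1) / 64 ≠ 0 := by positivity
      exact h8 h3.symm
  obtain ⟨hΩ, f, y, hf, hy, hv⟩ := Pool.Agent.N973.P21G.vl_allX hs h1
  refine ⟨f, hf, fun hw => ?_, fun hS h0 => ?_⟩
  · obtain ⟨-, g, hg, hg1⟩ := Pool.Agent.N975.S21V.vanish m hs h1 hw
    rw [← hg.unique hf]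
    exact hg1
  · have hyo := hy.2 hS
    have hy0 : y ≠ 0 := by
      rintro rfl
      exact absurd hyo (by decide)
    rw [h0] at hv
    have h3 : (0 : ℝ) = (y : ℝ) ^ 2 * (Omega (EE m) * tamProd (EE m) / 16) := by
      exact_mod_cast hv
    have h5 : (y : ℝ) ≠ 0 := by exact_mod_cast hy0
    have h7 : Omega (EE m) ≠ 0 := hΩ.ne'
    have h8 : (y : ℝ) ^ 2 * (Omega (EE m) * tamProd (EE m) / 16) ≠ 0 := by positivity
    exact h8 h3.symm

end Pool.Agent.N975.NF.T21
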